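import Pool.Agent.H.MP_afa6c5_al.Z

set_option autoImplicit false

namespace Pool.Agent.H.MP_b7123c_al

open scoped commutatorElement
open Pool.Agent.H.MP_afa6c5_al (RC order_of_RC)

section
variable {G : Type} [Group G]

lemma abelian_RC (H M : Subgroup G) (hc : ∀ a ∈ H, ∀ b ∈ H, ⁅a, b⁆ ∈ M)
    (hi : ∀ a ∈ H, ∀ n : ℕ, 0 < n → a ^ n ∈ M → a ∈ M) :
    ∃ P : G → Prop, (∀ a b, P a → P b → P (a * b)) ∧ (∀ a, ∀ h ∈ H, P a → P (h * a * h⁻¹)) ∧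
      (∀ a ∈ H, a ∈ M ∨ P a ∨ P a⁻¹) ∧ (∀ a ∈ M, ¬ P a) ∧
      ∀ a, ∀ m ∈ H, m ∈ M → P a → P (a * m) ∧ P (m * a) := by
  have nM : (M.subgroupOf H).Normal := ⟨fun n hn h => by
    have := mul_mem (hc _ h.2 _ n.2) (Subgroup.mem_subgroupOf.mp hn)
    rw [Subgroup.mem_subgroupOf]
    simpa [commutatorElement_def] using this⟩
  let B := H ⧸ M.subgroupOf H
  let π : H →* B := QuotientGroup.mk' _
  have π1 : ∀ a : H, π a = 1 ↔ a.1 ∈ M := fun a => QuotientGroup.eq_one_iff a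
  have cm : ∀ a b : B, a * b = b * a := by
    intro a b
    obtain ⟨a, rfl⟩ := QuotientGroup.mk'_surjective _ a
    obtain ⟨b, rfl⟩ := QuotientGroup.mk'_surjective _ b
    rw [← commutatorElement_eq_one_iff_mul_comm, ← map_commutatorElement]
    exact (π1 _).2 (hc _ a.2 _ b.2)
  have tf : ∀ a : B, ∀ n : ℕ, a ^ (n + 1) = 1 → a = 1 := by
    intro a n h
    obtain ⟨a, rfl⟩ := QuotientGroup.mk'_surjective _ a
    rw [← map_pow] at h
    exact (π1 _).2 (hi _ a.2 (n + 1) (by omega) ((π1 _).1 h))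
  obtain ⟨S, hS⟩ := zorn_subset {S : Set B | (∀ a ∈ S, ∀ b ∈ S, a * b ∈ S) ∧ (1 : B) ∉ S}
    (fun c hc hch => ⟨⋃₀ c, ⟨by
      rintro a ⟨S1, h1, a1⟩ b ⟨S2, h2, a2⟩
      rcases hch.total h1 h2 with h | h
      · exact ⟨S2, h2, (hc h2).1 _ (h a1) _ a2⟩
      · exact ⟨S1, h1, (hc h1).1 _ a1 _ (h a2)⟩, fun ⟨S1, h1, a1⟩ => (hc h1).2 a1⟩,
      fun s hs => Set.subset_sUnion_of_mem hs⟩)
  have Sp : ∀ p ∈ S, ∀ n : ℕ, p ^ (n + 1) ∈ S := by
    intro p hp n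
    induction n with
    | zero => simpa using hp
    | succ n ih => rw [pow_succ]; exact hS.prop.1 _ ih _ hp
  have ext : ∀ b : B, b ≠ 1 → b ∉ S → ∃ n : ℕ, (b ^ (n + 1))⁻¹ ∈ S := by
    intro b hb hb'
    by_contra hcon
    push Not at hcon
    apply hb'
    have := hS.eq_of_subset (t := {x | x ∈ S ∨ ∃ n : ℕ, x = b ^ (n + 1) ∨
        ∃ p ∈ S, x = b ^ (n + 1) * p}) ⟨?_, ?_⟩ (fun x hx => Or.inl hx)
    · rw [this]; exact Or.inr ⟨0, Or.inl (by simp)⟩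
    · rintro x (hx | ⟨n, rfl | ⟨p, hp, rfl⟩⟩) y (hy | ⟨m, rfl | ⟨q, hq, rfl⟩⟩)
      · exact Or.inl (hS.prop.1 _ hx _ hy)
      · exact Or.inr ⟨m, Or.inr ⟨x, hx, cm _ _⟩⟩
      · exact Or.inr ⟨m, Or.inr ⟨x * q, hS.prop.1 _ hx _ hq, by
          rw [← mul_assoc, cm x, mul_assoc]⟩⟩
      · exact Or.inr ⟨n, Or.inr ⟨y, hy, rfl⟩⟩
      · exact Or.inr ⟨n + m + 1, Or.inl (by rw [← pow_add]; congr 1; omega)⟩
      · exact Or.inr ⟨n + m + 1, Or.inr ⟨q, hq, by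
          rw [← mul_assoc, ← pow_add]; congr 2; omega⟩⟩
      · exact Or.inr ⟨n, Or.inr ⟨p * y, hS.prop.1 _ hp _ hy, mul_assoc _ _ _⟩⟩
      · exact Or.inr ⟨n + m + 1, Or.inr ⟨p, hp, by
          rw [mul_assoc, cm p, ← mul_assoc, ← pow_add]; congr 2; omega⟩⟩
      · exact Or.inr ⟨n + m + 1, Or.inr ⟨p * q, hS.prop.1 _ hp _ hq, by
          rw [mul_assoc, ← mul_assoc p, cm p, ← mul_assoc, ← mul_assoc, ← pow_add, mul_assoc]
          congr 2; omega⟩⟩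
    · rintro (h | ⟨n, h | ⟨p, hp, h⟩⟩)
      · exact hS.prop.2 h
      · exact hb (tf b n h.symm)
      · exact hcon n (by rwa [inv_eq_of_mul_eq_one_right h.symm])
  refine ⟨fun a => ∃ h : a ∈ H, π ⟨a, h⟩ ∈ S, ?_, ?_, ?_, ?_, ?_⟩
  · rintro a b ⟨ha, a1⟩ ⟨hb, b1⟩
    refine ⟨mul_mem ha hb, ?_⟩
    have : π ⟨a * b, mul_mem ha hb⟩ = π ⟨a, ha⟩ * π ⟨b, hb⟩ := by rw [← map_mul]; rfl
    rw [this]; exact hS.prop.1 _ a1 _ b1
  · rintro a h hh ⟨ha, a1⟩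
    refine ⟨mul_mem (mul_mem hh ha) (inv_mem hh), ?_⟩
    have : π ⟨h * a * h⁻¹, mul_mem (mul_mem hh ha) (inv_mem hh)⟩ =
        π ⟨h, hh⟩ * π ⟨a, ha⟩ * (π ⟨h, hh⟩)⁻¹ := by rw [← map_inv, ← map_mul, ← map_mul]; rfl
    rw [this, cm (π ⟨h, hh⟩), mul_inv_cancel_right]
    exact a1
  · intro a ha
    by_cases h : a ∈ M
    · exact Or.inl h
    right
    by_contra hcon
    push Not at hcon
    have n1 : π ⟨a, ha⟩ ≠ 1 := fun h1 => h ((π1 _).1 h1)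
    obtain ⟨n, h1⟩ := ext _ n1 (hcon.1 ha)
    obtain ⟨m, h2⟩ := ext (π ⟨a, ha⟩)⁻¹ (by simpa using n1) (hcon.2 (inv_mem ha))
    have := hS.prop.1 _ (Sp _ h1 m) _ (Sp _ h2 n)
    rw [inv_pow (π ⟨a, ha⟩), inv_inv, inv_pow, ← pow_mul, ← pow_mul, mul_comm (n + 1),
      inv_mul_cancel] at this
    exact hS.prop.2 this
  · rintro a ha ⟨h, h1⟩
    rw [(π1 ⟨a, h⟩).2 ha] at h1
    exact hS.prop.2 h1
  · rintro a m hm hM ⟨ha, a1⟩
    have e := (π1 ⟨m, hm⟩).2 hM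
    refine ⟨⟨mul_mem ha hm, ?_⟩, ⟨mul_mem hm ha, ?_⟩⟩
    · have : π ⟨a * m, mul_mem ha hm⟩ = π ⟨a, ha⟩ * π ⟨m, hm⟩ := by rw [← map_mul]; rfl
      rwa [this, e, mul_one]
    · have : π ⟨m * a, mul_mem hm ha⟩ = π ⟨m, hm⟩ * π ⟨a, ha⟩ := by rw [← map_mul]; rfl
      rwa [this, e, one_mul]

/-- conjugate subgroup -/
def cj (t : G) (C : Subgroup G) : Subgroup G := C.comap (MulAut.conj t⁻¹).toMonoidHom

lemma mem_cj {t x : G} {C : Subgroup G} : x ∈ cj t C ↔ t⁻¹ * x * t ∈ C := by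
  simp [cj]

lemma cj_mul (s t : G) (C : Subgroup G) : cj (s * t) C = cj s (cj t C) := by
  ext x; simp [mem_cj, mul_assoc]

lemma cj_one (C : Subgroup G) : cj 1 C = C := by ext x; simp [mem_cj]

lemma cj_mono (t : G) {C D : Subgroup G} (h : C ≤ D) : cj t C ≤ cj t D :=
  fun _ hx => mem_cj.2 (h (mem_cj.1 hx))

lemma cj_self {t : G} {C : Subgroup G} (h : t ∈ C) : cj t C = C := by
  ext x; rw [mem_cj]
  constructor
  · intro h1; simpa [mul_assoc] using mul_mem (mul_mem h h1) (inv_mem h)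
  · intro h1; exact mul_mem (mul_mem (inv_mem h) h1) h

lemma cj_inv {t : G} {C : Subgroup G} (h : cj t C = C) : cj t⁻¹ C = C := by
  nth_rewrite 1 [← h]; rw [← cj_mul, inv_mul_cancel, cj_one]

end

section Ord
variable {G : Type} [Group G] [LinearOrder G] [MulLeftMono G] [MulRightMono G]

def Cvx (C : Subgroup G) : Prop := ∀ g h, h ∈ C → 1 ≤ g → g ≤ h → g ∈ C

lemma Cvx.total {C D : Subgroup G} (hC : Cvx C) (hD : Cvx D) : C ≤ D ∨ D ≤ C := by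
  by_contra h
  push Not at h
  obtain ⟨c, c1, c2⟩ := SetLike.not_le_iff_exists.mp h.1
  obtain ⟨d, d1, d2⟩ := SetLike.not_le_iff_exists.mp h.2
  have key : ∀ c d : G, c ∈ C → c ∉ D → d ∈ D → d ∉ C → 1 ≤ c → 1 ≤ d → False := by
    intro c d c1 c2 d1 d2 h1 h2
    rcases le_total c d with h | h
    · exact c2 (hD c d d1 h1 h)
    · exact d2 (hC d c c1 h2 h)
  rcases le_total 1 c with h1 | h1 <;> rcases le_total 1 d with h2 | h2
  · exact key c d c1 c2 d1 d2 h1 h2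
  · exact key c d⁻¹ c1 c2 (inv_mem d1) (by simpa using d2) h1 (by simpa using h2)
  · exact key c⁻¹ d (inv_mem c1) (by simpa using c2) d1 d2 (by simpa using h1) h2
  · exact key c⁻¹ d⁻¹ (inv_mem c1) (by simpa using c2) (inv_mem d1) (by simpa using d2)
      (by simpa using h1) (by simpa using h2)

lemma Cvx.cj {C : Subgroup G} (hC : Cvx C) (t : G) : Cvx (cj t C) := by
  intro g h hh h1 h2
  rw [mem_cj] at hh ⊢
  refine hC _ _ hh ?_ (mul_le_mul_left (mul_le_mul_right h2 _) _)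
  simpa using mul_le_mul_left (mul_le_mul_right h1 t⁻¹) t

lemma cvx_bot : Cvx (⊥ : Subgroup G) := fun g h hh h1 h2 => by
  rw [Subgroup.mem_bot] at hh ⊢
  exact le_antisymm (hh ▸ h2) h1

def cup (S : Set (Subgroup G)) (hS : ∀ C ∈ S, Cvx C) : Subgroup G where
  carrier := {g | g = 1 ∨ ∃ C ∈ S, g ∈ C}
  one_mem' := Or.inl rfl
  mul_mem' := by
    rintro a b (rfl | ⟨C, c1, c2⟩) (rfl | ⟨D, d1, d2⟩)
    · left; simp
    · right; exact ⟨D, d1, by simpa using d2⟩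
    · right; exact ⟨C, c1, by simpa using c2⟩
    · right
      rcases (hS C c1).total (hS D d1) with h | h
      · exact ⟨D, d1, mul_mem (h c2) d2⟩
      · exact ⟨C, c1, mul_mem c2 (h d2)⟩
  inv_mem' := by
    rintro a (rfl | ⟨C, c1, c2⟩)
    · left; simp
    · right; exact ⟨C, c1, inv_mem c2⟩

lemma mem_cup {S : Set (Subgroup G)} {hS : ∀ C ∈ S, Cvx C} {g : G} :
    g ∈ cup S hS ↔ g = 1 ∨ ∃ C ∈ S, g ∈ C := Iff.rfl

lemma cvx_cup {S : Set (Subgroup G)} {hS : ∀ C ∈ S, Cvx C} : Cvx (cup S hS) := by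
  rintro g h (rfl | ⟨C, c1, c2⟩) h1 h2
  · exact Or.inl (le_antisymm h2 h1)
  · exact Or.inr ⟨C, c1, hS C c1 g h c2 h1 h2⟩

lemma cj_cup {S : Set (Subgroup G)} {hS : ∀ C ∈ S, Cvx C} {t : G}
    (h1 : ∀ C ∈ S, cj t C ∈ S) (h2 : ∀ C ∈ S, cj t⁻¹ C ∈ S) : cj t (cup S hS) = cup S hS := by
  ext x
  rw [mem_cj, mem_cup, mem_cup]
  constructor
  · rintro (h | ⟨C, c1, c2⟩)
    · left; simpa [mul_eq_one_iff_eq_inv'] using h
    · exact Or.inr ⟨_, h1 C c1, mem_cj.2 c2⟩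
  · rintro (h | ⟨C, c1, c2⟩)
    · left; simp [h]
    · exact Or.inr ⟨_, h2 C c1, mem_cj.2 (by simpa [mul_assoc] using c2)⟩

def hull (a : G) (ha : 1 ≤ a) : Subgroup G where
  carrier := {g | ∃ n : ℕ, g ≤ a ^ n ∧ g⁻¹ ≤ a ^ n}
  one_mem' := ⟨0, by simp⟩
  mul_mem' := by
    rintro x y ⟨n, a1, a2⟩ ⟨m, b1, b2⟩
    refine ⟨n + m, by rw [pow_add]; exact mul_le_mul' a1 b1, ?_⟩
    rw [mul_inv_rev, add_comm, pow_add]; exact mul_le_mul' b2 a2
  inv_mem' := by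
    rintro x ⟨n, a1, a2⟩
    exact ⟨n, a2, by simpa using a1⟩

lemma holder (H M : Subgroup G) (hH : Cvx H) (hM : Cvx M) (hn : ∀ h ∈ H, cj h M = M)
    (hmax : ∀ C, Cvx C → C ≤ H → C ≤ M ∨ C = H) : ∀ a ∈ H, ∀ b ∈ H, ⁅a, b⁆ ∈ M := by
  have fl : ∀ z ∈ H, z ∉ M → 1 < z → ∀ g ∈ H, ∃ m : ℤ, z ^ m ≤ g ∧ g < z ^ (m + 1) := by
    intro z hz hzM z1 g hg
    have e : hull z z1.le = H := by
      refine (hmax _ ?_ ?_).resolve_left fun h => hzM (h ⟨1, by simp, ?_⟩)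
      · rintro g h ⟨n, a1, -⟩ h1 h2
        exact ⟨n, h2.trans a1, (inv_le_one'.mpr h1).trans (one_le_pow_of_one_le' z1.le n)⟩
      · rintro g ⟨n, a1, a2⟩
        rcases le_total 1 g with h | h
        · exact hH g _ (pow_mem hz n) h a1
        · exact inv_mem_iff.mp (hH g⁻¹ _ (pow_mem hz n) (by simpa using h) a2)
      · simpa using (inv_le_one'.mpr z1.le).trans z1.le
    obtain ⟨n, a1, a2⟩ : g ∈ hull z z1.le := e ▸ hg
    have sm : StrictMono fun n : ℤ => z ^ n := strictMono_int_of_lt_succ fun n => by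
      rw [zpow_add_one]; exact lt_mul_of_one_lt_right' _ z1
    obtain ⟨m, m1, m2⟩ := Int.exists_greatest_of_bdd (P := fun m => z ^ m ≤ g)
      ⟨n, fun m hm => sm.le_iff_le.mp (by simpa using hm.trans a1)⟩
      ⟨-n, by simpa using inv_le_inv_iff.mpr a2⟩
    refine ⟨m, m1, ?_⟩
    by_contra hc
    have := m2 _ (not_lt.mp hc)
    omega
  have key : ∀ a ∈ H, ∀ b ∈ H, 1 < ⁅a, b⁆ → ⁅a, b⁆ ∈ M := by
    intro a ha b hb h1
    by_contra hc
    have cH : ⁅a, b⁆ ∈ H := mul_mem (mul_mem (mul_mem ha hb) (inv_mem ha)) (inv_mem hb)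
    by_cases hy : ∃ y, 1 ≤ y ∧ y ≤ ⁅a, b⁆ ∧ y ∉ M ∧ y⁻¹ * ⁅a, b⁆ ∉ M
    · obtain ⟨y, y1, y2, y3, y4⟩ := hy
      have yH : y ∈ H := hH _ _ cH y1 y2
      obtain ⟨z, zH, zM, z1, z2⟩ : ∃ z ∈ H, z ∉ M ∧ 1 ≤ z ∧ z * z ≤ ⁅a, b⁆ := by
        rcases le_total y (y⁻¹ * ⁅a, b⁆) with h | h
        · exact ⟨y, yH, y3, y1, by simpa using mul_le_mul_right h y⟩
        · refine ⟨_, mul_mem (inv_mem yH) cH, y4, by simpa using y2, ?_⟩
          simpa using mul_le_mul_left h (y⁻¹ * ⁅a, b⁆)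
      have z3 : 1 < z := lt_of_le_of_ne z1 fun h => zM (h ▸ one_mem M)
      obtain ⟨m, m1, m2⟩ := fl z zH zM z3 a ha
      obtain ⟨n, n1, n2⟩ := fl z zH zM z3 b hb
      have a1 : a * b < z ^ (m + 1) * z ^ (n + 1) := mul_lt_mul_of_lt_of_lt m2 n2
      have a2 : (b * a)⁻¹ ≤ (z ^ n * z ^ m)⁻¹ := inv_le_inv_iff.mpr (mul_le_mul' n1 m1)
      have a3 := mul_lt_mul_of_lt_of_le a1 a2
      have e1 : a * b * (b * a)⁻¹ = ⁅a, b⁆ := by rw [commutatorElement_def]; group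
      have e2 : z ^ (m + 1) * z ^ (n + 1) * (z ^ n * z ^ m)⁻¹ = z * z := by
        rw [← zpow_add, ← zpow_add, ← zpow_neg, ← zpow_add, ← zpow_two]; congr 1; ring
      rw [e1, e2] at a3
      exact absurd z2 (not_le.mpr a3)
    · push Not at hy
      obtain ⟨z, hz⟩ : ∃ z, z = ⁅a, b⁆ := ⟨_, rfl⟩
      rw [← hz] at hy cH hc h1
      have cyc : ∀ g ∈ H, ∃ (i : ℤ) (m : G), m ∈ M ∧ g = z ^ i * m := by
        intro g hg
        obtain ⟨i, m1, m2⟩ := fl z cH hc h1 g hg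
        by_cases h : (z ^ i)⁻¹ * g ∈ M
        · exact ⟨i, _, h, by simp⟩
        · have := hy ((z ^ i)⁻¹ * g) (by simpa using m1) (by
            rw [inv_mul_le_iff_le_mul, ← zpow_add_one]; exact m2.le) h
          have h2 := (mem_cj.1 ((hn z⁻¹ (inv_mem cH)).symm ▸ inv_mem this))
          refine ⟨i + 1, _, inv_mem this, ?_⟩
          group
      obtain ⟨i, m, m1, ha'⟩ := cyc a ha
      obtain ⟨j, n, n1, hb'⟩ := cyc b hb
      have cm : ∀ k : ℤ, ∀ m ∈ M, z ^ k * m * (z ^ k)⁻¹ ∈ M := fun k m hm => by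
        have := mem_cj.1 ((hn _ (inv_mem (zpow_mem cH k))).symm ▸ hm)
        simpa using this
      apply hc
      have e : ⁅z ^ i * m, z ^ j * n⁆ = (z ^ (i + j) * ((z ^ (-j) * m * (z ^ (-j))⁻¹) * n * m⁻¹) *
          (z ^ (i + j))⁻¹) * (z ^ j * n⁻¹ * (z ^ j)⁻¹) := by
        rw [commutatorElement_def]; group
      rw [hz, ha', hb', e]
      exact mul_mem (cm _ _ (mul_mem (mul_mem (cm _ _ m1) n1) (inv_mem m1))) (cm _ _ (inv_mem n1))
  intro a ha b hb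
  rcases lt_trichotomy 1 ⁅a, b⁆ with h | h | h
  · exact key a ha b hb h
  · rw [← h]; exact one_mem _
  · have := key b hb a ha (by rw [← commutatorElement_inv]; exact one_lt_inv'.mpr h)
    rw [← commutatorElement_inv] at this
    exact inv_mem_iff.mp this

theorem lemT (H : Subgroup G) (hH : Cvx H) (hn : ∀ h ∈ H, cj h H = H) (D : ℕ → Subgroup G)
    (D0 : D 0 = H) (Dc : ∀ i, ∀ a ∈ D i, ∀ b ∈ D i, ⁅a, b⁆ ∈ D (i + 1))
    (Dm : ∀ i, D (i + 1) ≤ D i) (d : ℕ) (Dd : D d = ⊥) {x : G} (hx : x ∈ ⁅H, H⁆) (x1 : x ≠ 1) :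
    ∃ C, Cvx C ∧ C ≤ H ∧ C ≠ H ∧ x ∈ C ∧ ∀ h ∈ H, cj h C = C := by
  have cjH : ∀ h ∈ H, ∀ C, C ≤ H → cj h C ≤ H := fun h hh C hC => hn h hh ▸ cj_mono h hC
  have cjne : ∀ h ∈ H, ∀ C, C ≠ H → cj h C ≠ H := fun h hh C hC e => hC (by
    rw [← cj_one C, ← inv_mul_cancel h, cj_mul, e, hn _ (inv_mem hh)])
  have xH : x ∈ H := (Subgroup.commutator_le.mpr fun a ha b hb =>
    mul_mem (mul_mem (mul_mem ha hb) (inv_mem ha)) (inv_mem hb)) hx
  by_cases top : ∃ y ∈ H, ∀ C, Cvx C → C ≤ H → y ∈ C → C = H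
  · obtain ⟨y, yH, hy⟩ := top
    have y1 : y ≠ 1 := by
      rintro rfl
      have := hy ⊥ cvx_bot bot_le (one_mem _)
      rw [← this] at xH
      exact x1 xH
    let S : Set (Subgroup G) := {C | Cvx C ∧ C ≤ H ∧ C ≠ H}
    have hS : ∀ C ∈ S, Cvx C := fun C h => h.1
    have cS : ∀ h ∈ H, ∀ C ∈ S, cj h C ∈ S := fun h hh C hC =>
      ⟨hC.1.cj h, cjH h hh C hC.2.1, cjne h hh C hC.2.2⟩
    have nM : ∀ h ∈ H, cj h (cup S hS) = cup S hS := fun h hh =>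
      cj_cup (cS h hh) (cS _ (inv_mem hh))
    refine ⟨cup S hS, cvx_cup, ?_, fun e => ?_, ?_, nM⟩
    · rintro g (rfl | ⟨C, c1, c2⟩)
      · exact one_mem _
      · exact c1.2.1 c2
    · rw [← e] at yH
      rcases yH with h | ⟨C, c1, c2⟩
      · exact y1 h
      · exact c1.2.2 (hy C c1.1 c1.2.1 c2)
    · refine (Subgroup.commutator_le.mpr (holder H _ hH cvx_cup nM fun C c1 c2 => ?_)) hx
      by_cases e : C = H
      · exact Or.inr e
      · exact Or.inl fun g hg => Or.inr ⟨C, ⟨c1, c2, e⟩, hg⟩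
  · push Not at top
    have DH : ∀ i, D i ≤ H := by
      intro i
      induction i with
      | zero => exact D0.le
      | succ i ih => exact (Dm i).trans ih
    have ind : ∀ n i, i + n = d → ∃ C, Cvx C ∧ C ≤ H ∧ C ≠ H ∧ x ∈ C ∧ ∀ h ∈ D i, cj h C = C := by
      intro n
      induction n with
      | zero =>
        intro i hi
        obtain ⟨C, c1, c2, c3, c4⟩ := top x xH
        refine ⟨C, c1, c2, c4, c3, fun h hh => ?_⟩
        rw [show i = d by omega, Dd, Subgroup.mem_bot] at hh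
        rw [hh, cj_one]
      | succ n ih =>
        intro i hi
        obtain ⟨C, c1, c2, c3, c4, c5⟩ := ih (i + 1) (by omega)
        by_cases hγ : ∀ h ∈ D i, cj h C = C
        · exact ⟨C, c1, c2, c3, c4, hγ⟩
        push Not at hγ
        obtain ⟨γ, γ1, γ2⟩ := hγ
        let S : Set (Subgroup G) :=
          {E | Cvx E ∧ E ≤ H ∧ (∀ h ∈ D (i + 1), cj h E = E) ∧ cj γ E ≠ E}
        have hS : ∀ C ∈ S, Cvx C := fun C h => h.1
        have cS : ∀ δ ∈ D i, ∀ E ∈ S, cj δ E ∈ S := by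
          rintro δ hδ E ⟨e1, e2, e3, e4⟩
          refine ⟨e1.cj δ, cjH δ (DH i hδ) E e2, fun h hh => ?_, fun h => e4 ?_⟩
          · have a1 := mul_mem (Dc i _ (inv_mem hδ) _ (Dm i hh)) hh
            have a2 : h * δ = δ * (⁅δ⁻¹, h⁆ * h) := by rw [commutatorElement_def]; group
            rw [← cj_mul, a2, cj_mul, e3 _ a1]
          · have a1 := Dc i _ (inv_mem γ1) _ (inv_mem hδ)
            have a2 : γ * δ = δ * γ * ⁅γ⁻¹, δ⁻¹⁆ := by rw [commutatorElement_def]; group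
            rw [← cj_mul, a2, cj_mul, e3 _ a1, cj_mul] at h
            have := congrArg (cj δ⁻¹) h
            rwa [← cj_mul δ⁻¹ δ, ← cj_mul δ⁻¹ δ, inv_mul_cancel, cj_one, cj_one] at this
        refine ⟨cup S hS, cvx_cup, ?_, fun e => ?_, Or.inr ⟨C, ⟨c1, c2, c5, γ2⟩, c4⟩,
          fun h hh => cj_cup (cS h hh) (cS _ (inv_mem hh))⟩
        · rintro g (rfl | ⟨C, c1, c2⟩)
          · exact one_mem _
          · exact c1.2.1 c2
        · have := DH i γ1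
          rw [← e] at this
          rcases this with h | ⟨E, e1, e2⟩
          · exact γ2 (by rw [h, cj_one])
          · exact e1.2.2.2 (cj_self e2)
    obtain ⟨C, c1, c2, c3, c4, c5⟩ := ind d 0 (by simp)
    exact ⟨C, c1, c2, c3, c4, D0 ▸ c5⟩

end Ord

end Pool.Agent.H.MP_b7123c_al
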