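import Pool.Agent.H.MP_b7123c_al.A

set_option autoImplicit false

namespace Pool.Agent.H.MP_b7123c_al

open scoped commutatorElement
open Pool.Agent.H.MP_afa6c5_al (RC order_of_RC RC_of_order)

section
variable {G : Type} [Group G]

lemma lex {H N : Subgroup G} {P0 P : G → Prop} (h0 : RC H P0) (hN : N ≤ H)
    (mul : ∀ a b, P a → P b → P (a * b)) (conj : ∀ a h, P a → P (h * a * h⁻¹))
    (tri : ∀ a ∈ H, a ∈ N ∨ P a ∨ P a⁻¹) (excl : ∀ a ∈ N, ¬ P a) (sub : ∀ a, P a → a ∈ H) :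
    RC N (fun a => P0 a ∨ P a) where
  mul := by
    rintro a b (ha | ha) (hb | hb)
    · exact Or.inl (h0.mul _ _ ha hb)
    · exact Or.inl (h0.mul_right ha (sub _ hb))
    · exact Or.inl (by simpa using h0.mul_right (h0.conj _ a hb) (sub _ ha))
    · exact Or.inr (mul _ _ ha hb)
  conj := by
    rintro a h (ha | ha)
    · exact Or.inl (h0.conj _ _ ha)
    · exact Or.inr (conj _ _ ha)
  tri := by
    intro a
    rcases h0.tri a with h | h | h
    · rcases tri a h with h | h | h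
      · exact Or.inl h
      · exact Or.inr (Or.inl (Or.inr h))
      · exact Or.inr (Or.inr (Or.inr h))
    · exact Or.inr (Or.inl (Or.inl h))
    · exact Or.inr (Or.inr (Or.inl h))
  excl := by
    rintro a ha (h | h)
    · exact h0.excl _ (hN ha) h
    · exact excl _ ha h

def U (M : Subgroup G) (h : G) : Set G := {t | t⁻¹ * h * t ∈ M}

def sh (s : G) (V : Set G) : Set G := {t | s⁻¹ * t ∈ V}

lemma sh_mul (s t : G) (V : Set G) : sh (s * t) V = sh s (sh t V) := by
  ext x; simp [sh, mul_assoc]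

lemma sh_one (V : Set G) : sh 1 V = V := by ext x; simp [sh]

lemma sh_mono (s : G) {V W : Set G} (h : V ⊆ W) : sh s V ⊆ sh s W := fun _ hx => h hx

lemma sh_inv {s : G} {V W : Set G} (h : sh s V = W) : sh s⁻¹ W = V := by
  rw [← h, ← sh_mul, inv_mul_cancel, sh_one]

lemma sh_ss (s : G) {V W : Set G} (h : V ⊂ W) : sh s V ⊂ sh s W :=
  ⟨sh_mono s h.1, fun h1 => h.2 (by
    have := sh_mono s⁻¹ h1
    rwa [← sh_mul, ← sh_mul, inv_mul_cancel, sh_one, sh_one] at this)⟩

lemma U_conj (M : Subgroup G) (s h : G) : U M (s * h * s⁻¹) = sh s (U M h) := by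
  ext x; simp [U, sh, mul_assoc]

lemma U_conj' (M : Subgroup G) (s h : G) : U M (s⁻¹ * h * s) = sh s⁻¹ (U M h) := by
  rw [← U_conj, inv_inv]

lemma U_inv (M : Subgroup G) (h : G) : U M h⁻¹ = U M h := by
  ext x
  have : x⁻¹ * h⁻¹ * x = (x⁻¹ * h * x)⁻¹ := by group
  simp only [U, Set.mem_setOf_eq, this, inv_mem_iff]

lemma U_mul (M : Subgroup G) {a b t : G} (ha : t ∈ U M a) (hb : t ∈ U M b) : t ∈ U M (a * b) := by
  have := mul_mem (show t⁻¹ * a * t ∈ M from ha) (show t⁻¹ * b * t ∈ M from hb)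
  simpa [U, mul_assoc] using this

lemma U_univ (M : Subgroup G) (h : G) : U M h = Set.univ ↔ h ∈ M.normalCore := by
  constructor
  · intro e t
    have : t⁻¹ ∈ U M h := e ▸ Set.mem_univ _
    simpa [U] using this
  · intro e
    ext t
    simpa [U] using e t⁻¹

noncomputable def rho (W : Set G) : Set G := Classical.epsilon fun V => ∃ s, sh s V = W

lemma rho_spec (W : Set G) : ∃ s, sh s (rho W) = W :=
  Classical.epsilon_spec (p := fun V => ∃ s, sh s V = W) ⟨W, 1, sh_one W⟩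

lemma rho_sh (g : G) (W : Set G) : rho (sh g W) = rho W := by
  unfold rho
  congr 1
  ext V
  constructor
  · rintro ⟨s, hs⟩
    exact ⟨g⁻¹ * s, by rw [sh_mul, hs, ← sh_mul, inv_mul_cancel, sh_one]⟩
  · rintro ⟨s, hs⟩
    exact ⟨g * s, by rw [sh_mul, hs]⟩

theorem core_RC (H M : Subgroup G) (hH : H.Normal) (H1 : H ≠ ⊥) (hG : ∀ a b : G, ⁅a, b⁆ ∈ H)
    (hMH : M ≤ H) (hc : ∀ a ∈ H, ∀ b ∈ H, ⁅a, b⁆ ∈ M)
    (hi : ∀ a ∈ H, ∀ n : ℕ, 0 < n → a ^ n ∈ M → a ∈ M)
    (ch : ∀ s t, cj s M ≤ cj t M ∨ cj t M ≤ cj s M) (hu : ∀ h ∈ H, ∃ t, h ∈ cj t M)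
    (uq : ∀ N : Subgroup G, N.Normal → (∃ P, RC N P) → N = ⊥ ∨ N = H ∨ N = ⊤)
    {P0 : G → Prop} (h0 : RC H P0) : ∃ P, RC M.normalCore P := by
  have mU : ∀ {t h : G}, t ∈ U M h ↔ h ∈ cj t M := fun {t h} => mem_cj.symm
  have cH : ∀ t, ∀ a ∈ H, t⁻¹ * a * t ∈ H := fun t a ha => by simpa using hH.conj_mem a ha t⁻¹
  have tot : ∀ a b, U M a ⊆ U M b ∨ U M b ⊆ U M a := by
    intro a b
    by_contra hcon
    push Not at hcon
    obtain ⟨t, t1, t2⟩ := Set.not_subset.mp hcon.1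
    obtain ⟨s, s1, s2⟩ := Set.not_subset.mp hcon.2
    rcases ch s t with h | h
    · exact t2 (mU.2 (h (mU.1 s1)))
    · exact s2 (mU.2 (h (mU.1 t1)))
  have Uc : ∀ a ∈ H, ∀ b ∈ H, U M ⁅a, b⁆ = Set.univ := by
    intro a ha b hb
    ext t
    have := hc _ (cH t a ha) _ (cH t b hb)
    simpa [U, commutatorElement_def, mul_assoc] using this
  have shH : ∀ a ∈ H, ∀ k ∈ H, sh k (U M a) = U M a := by
    have : ∀ a ∈ H, ∀ k ∈ H, U M a ⊆ U M (k * a * k⁻¹) := by
      intro a ha k hk t ht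
      have := U_mul M (show t ∈ U M ⁅k, a⁆ by rw [Uc k hk a ha]; trivial) ht
      simpa [commutatorElement_def] using this
    intro a ha k hk
    rw [← U_conj]
    refine subset_antisymm ?_ (this a ha k hk)
    simpa [mul_assoc] using this _ (hH.conj_mem a ha k) k⁻¹ (inv_mem hk)
  have stab : ∀ a ∈ H, U M a ≠ Set.univ → ∀ s, sh s (U M a) = U M a → s ∈ H := by
    intro a ha ne
    let S : Subgroup G :=
      { carrier := {s | sh s (U M a) = U M a}
        one_mem' := sh_one _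
        mul_mem' := fun {x y} hx hy => by
          rw [Set.mem_setOf_eq] at hx hy ⊢; rw [sh_mul, hy, hx]
        inv_mem' := fun {x} hx => sh_inv hx }
    have HS : H ≤ S := fun k hk => shH a ha k hk
    have cs : ∀ s g : G, sh (g * s * g⁻¹) (U M a) = sh s (U M a) := by
      intro s g
      have : g * s * g⁻¹ = s * ⁅s⁻¹, g⁆ := by rw [commutatorElement_def]; group
      rw [this, sh_mul, shH a ha _ (hG _ _)]
    have nS : S.Normal := ⟨fun s hs g => (cs s g).trans hs⟩
    have rS : RC S fun s => sh s (U M a) ⊂ U M a :=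
      { mul := fun x y hx hy => by
          rw [sh_mul]; exact (sh_ss x hy).trans hx
        conj := fun x g hx => by rw [cs]; exact hx
        tri := fun x => by
          by_cases e : sh x (U M a) = U M a
          · exact Or.inl e
          right
          rcases tot (x * a * x⁻¹) a with h | h <;> rw [U_conj] at h
          · exact Or.inl (h.ssubset_of_ne e)
          · have := sh_ss x⁻¹ (h.ssubset_of_ne (Ne.symm e))
            rw [← sh_mul, inv_mul_cancel, sh_one] at this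
            exact Or.inr this
        excl := fun x hx h => h.ne hx }
    rcases uq S nS ⟨_, rS⟩ with e | e | e
    · exact absurd (le_bot_iff.mp (e ▸ HS)) H1
    · intro s hs; rw [← e]; exact hs
    · exfalso
      apply ne
      obtain ⟨t, ht⟩ := hu a ha
      ext x
      have h1 : x * t⁻¹ ∈ S := e ▸ Subgroup.mem_top _
      have h2 : sh (x * t⁻¹) (U M a) = U M a := h1
      refine ⟨fun _ => trivial, fun _ => ?_⟩
      rw [← h2]
      simpa [sh] using mU.2 ht
  let Hm : Set G → Subgroup G := fun V =>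
    { carrier := {h | h ∈ H ∧ (V ⊂ U M h ∨ U M h = Set.univ)}
      one_mem' := ⟨one_mem _, Or.inr (by ext t; simp [U])⟩
      mul_mem' := by
        rintro a b ⟨a1, a2⟩ ⟨b1, b2⟩
        refine ⟨mul_mem a1 b1, ?_⟩
        rcases tot a b with h | h
        · have h' : U M a ⊆ U M (a * b) := fun t ht => U_mul M ht (h ht)
          rcases a2 with a2 | a2
          · exact Or.inl (a2.trans_subset h')
          · exact Or.inr (Set.eq_univ_of_univ_subset (a2 ▸ h'))
        · have h' : U M b ⊆ U M (a * b) := fun t ht => U_mul M (h ht) ht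
          rcases b2 with a2 | a2
          · exact Or.inl (a2.trans_subset h')
          · exact Or.inr (Set.eq_univ_of_univ_subset (a2 ▸ h'))
      inv_mem' := by
        rintro a ⟨a1, a2⟩
        exact ⟨inv_mem a1, by rwa [U_inv]⟩ }
  have mHm : ∀ V h, h ∈ Hm V ↔ h ∈ H ∧ (V ⊂ U M h ∨ U M h = Set.univ) := fun _ _ => Iff.rfl
  have Up : ∀ a ∈ H, ∀ n : ℕ, 0 < n → U M (a ^ n) ⊆ U M a := by
    intro a ha n hn t ht
    refine hi _ (cH t a ha) n hn ?_
    have := conj_pow (a := t⁻¹) (b := a) (i := n)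
    rw [inv_inv] at this
    rw [this]; exact ht
  choose Q Q1 Q2 Q3 Q4 Q5 using fun V : Set G => abelian_RC H (Hm V)
    (fun a ha b hb => ⟨hG a b, Or.inr (Uc a ha b hb)⟩)
    (fun a ha n hn h => (mHm _ _).2 ⟨ha, by
      rcases ((mHm _ _).1 h).2 with h1 | h1
      · exact Or.inl (h1.trans_subset (Up a ha n hn))
      · exact Or.inr (Set.eq_univ_of_univ_subset (h1 ▸ Up a ha n hn))⟩)
  let P : G → Prop := fun a => a ∈ H ∧ U M a ≠ Set.univ ∧
    ∃ s, sh s (rho (U M a)) = U M a ∧ Q (rho (U M a)) (s⁻¹ * a * s)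
  have dom : ∀ a b, U M a ⊂ U M b → U M (a * b) = U M a ∧ U M (b * a) = U M a := by
    intro a b h
    obtain ⟨s, s1, s2⟩ := Set.exists_of_ssubset h
    have key : ∀ c, (∀ t, t ∈ U M c → t ∈ U M b → t ∈ U M a) → U M c ⊆ U M a := by
      intro c hc t ht
      rcases ch s t with h1 | h1
      · exact hc t ht (mU.2 (h1 (mU.1 s1)))
      · exact absurd (hc s (mU.2 (h1 (mU.1 ht))) s1) s2
    refine ⟨subset_antisymm (key _ fun t t1 t2 => ?_) fun t ht => U_mul M ht (h.1 ht),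
      subset_antisymm (key _ fun t t1 t2 => ?_) fun t ht => U_mul M (h.1 ht) ht⟩
    · have := U_mul M t1 ((U_inv M b).symm ▸ t2 : t ∈ U M b⁻¹)
      rwa [mul_inv_cancel_right] at this
    · have := U_mul M ((U_inv M b).symm ▸ t2 : t ∈ U M b⁻¹) t1
      rwa [inv_mul_cancel_left] at this
  have dom2 : ∀ a b, P a → b ∈ H → U M a ⊂ U M b → P (a * b) ∧ P (b * a) := by
    rintro a b ⟨a1, a2, s, s1, s2⟩ b1 h
    obtain ⟨d1, d2⟩ := dom a b h
    have m : s⁻¹ * b * s ∈ Hm (rho (U M a)) := ⟨cH s b b1, Or.inl (by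
      rw [U_conj', ← sh_inv s1]; exact sh_ss _ h)⟩
    obtain ⟨q1, q2⟩ := Q5 _ _ _ (cH s b b1) m s2
    refine ⟨⟨mul_mem a1 b1, d1 ▸ a2, s, by rw [d1, s1], ?_⟩,
      ⟨mul_mem b1 a1, d2 ▸ a2, s, by rw [d2, s1], ?_⟩⟩
    · rw [d1]; simpa [mul_assoc] using q1
    · rw [d2]; simpa [mul_assoc] using q2
  refine ⟨_, lex (P := P) h0 (M.normalCore_le.trans hMH) ?_ ?_ ?_ ?_ fun a h => h.1⟩
  · intro a b ha hb
    by_cases e : U M a = U M b
    · obtain ⟨a1, a2, s, s1, s2⟩ := ha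
      obtain ⟨b1, -, r, r1, r2⟩ := hb
      rw [← e] at r1 r2
      have k1 : r * s⁻¹ ∈ H := stab a a1 a2 _ (by rw [sh_mul, sh_inv s1, r1])
      have k2 := Q2 _ _ _ (cH s _ k1) r2
      have k3 := Q1 _ _ _ s2 k2
      have k4 : Q (rho (U M a)) (s⁻¹ * (a * b) * s) := by simpa [mul_assoc] using k3
      have k5 := mt (Q4 _ _) (not_not.mpr k4)
      rw [mHm, U_conj', ← sh_inv s1] at k5
      push Not at k5
      obtain ⟨k6, k7⟩ := k5 (cH s _ (mul_mem a1 b1))
      have k8 : U M a ⊆ U M (a * b) := fun t ht => U_mul M ht (e ▸ ht)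
      have d1 : U M (a * b) = U M a := by
        by_contra hne
        exact k6 (sh_ss _ (k8.ssubset_of_ne (Ne.symm hne)))
      exact ⟨mul_mem a1 b1, d1 ▸ a2, s, by rw [d1, s1], by rw [d1]; exact k4⟩
    · rcases tot a b with h | h
      · exact (dom2 a b ha hb.1 (h.ssubset_of_ne e)).1
      · exact (dom2 b a hb ha.1 (h.ssubset_of_ne (Ne.symm e))).2
  · rintro a g ⟨a1, a2, s, s1, s2⟩
    refine ⟨hH.conj_mem a a1 g, ?_, g * s, ?_, ?_⟩
    · rw [U_conj]
      intro h
      apply a2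
      rw [← sh_inv h]; rfl
    · rw [U_conj, rho_sh, sh_mul, s1]
    · rw [U_conj, rho_sh]; simpa [mul_assoc] using s2
  · intro a ha
    by_cases e : U M a = Set.univ
    · exact Or.inl ((U_univ M a).1 e)
    right
    obtain ⟨s, s1⟩ := rho_spec (U M a)
    rcases Q3 (rho (U M a)) _ (cH s a ha) with h | h | h
    · exfalso
      rw [mHm, U_conj', sh_inv s1] at h
      rcases h.2 with h | h
      · exact h.ne rfl
      · apply e; rw [← s1, h]; rfl
    · exact Or.inl ⟨ha, e, s, s1, h⟩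
    · refine Or.inr ⟨inv_mem ha, by rwa [U_inv], s, by rwa [U_inv], ?_⟩
      rw [U_inv]; simpa [mul_assoc] using h
  · intro a ha h
    exact h.2.1 ((U_univ M a).2 ha)

end

end Pool.Agent.H.MP_b7123c_al
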