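import Pool.Agent.H.MP_b7123c_al.B

set_option autoImplicit false

namespace Pool.Agent.H.MP_b7123c_al

open scoped commutatorElement
open Pool.Agent.H.MP_afa6c5_al (RC order_of_RC RC_of_order)

variable {G : Type} [Group G] [LinearOrder G] [MulLeftMono G] [MulRightMono G]

lemma Cvx.rc {C : Subgroup G} (hC : Cvx C) (hn : C.Normal) : RC C fun a => 1 ≤ a ∧ a ∉ C :=
  RC_of_order inferInstance (fun _ _ c h => ⟨mul_le_mul_right h c, mul_le_mul_left h c⟩) C hn
    fun a ha b hb g g1 g2 => by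
      have := hC (a⁻¹ * g) (a⁻¹ * b) (mul_mem (inv_mem ha) hb) (by simpa using g1)
        (mul_le_mul_right g2 _)
      simpa using mul_mem ha this

theorem main (H : Subgroup G) (hH : H.Normal) (cH : Cvx H) (H1 : H ≠ ⊥) (H2 : H ≠ ⊤)
    (uq : ∀ N : Subgroup G, N.Normal → (∃ P, RC N P) → N = ⊥ ∨ N = H ∨ N = ⊤)
    (d3 : derivedSeries G 3 = ⊥) : derivedSeries G 2 = ⊥ := by
  by_contra d2
  have nrm : ∀ C : Subgroup G, (∀ h, cj h C = C) → C.Normal := fun C hC =>
    ⟨fun n hn g => by rw [← hC g, mem_cj]; simpa [mul_assoc] using hn⟩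
  have uc : ∀ C : Subgroup G, Cvx C → C.Normal → C = ⊥ ∨ C = H ∨ C = ⊤ := fun C c1 c2 =>
    uq C c2 ⟨_, c1.rc c2⟩
  have dc : ∀ i, ∀ a ∈ derivedSeries G i, ∀ b ∈ derivedSeries G i,
      ⁅a, b⁆ ∈ derivedSeries G (i + 1) := fun i a ha b hb =>
    Subgroup.commutator_mem_commutator ha hb
  have dm : ∀ i, derivedSeries G (i + 1) ≤ derivedSeries G i := fun i =>
    derivedSeries_antitone G (Nat.le_succ i)
  have G1 : derivedSeries G 1 ≤ H := by
    intro x hx
    by_cases x1 : x = 1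
    · rw [x1]; exact one_mem _
    obtain ⟨C, c1, -, c3, c4, c5⟩ := lemT ⊤ (fun _ _ _ _ _ => trivial)
      (fun h hh => cj_self hh) (derivedSeries G) rfl dc dm 3 d3 hx x1
    rcases uc C c1 (nrm C fun h => c5 h trivial) with e | e | e
    · rw [e] at c4; exact absurd c4 x1
    · exact e ▸ c4
    · exact absurd e c3
  have hG : ∀ a b : G, ⁅a, b⁆ ∈ H := fun a b => G1 (dc 0 a trivial b trivial)
  obtain ⟨x, hx, x1⟩ := (Subgroup.ne_bot_iff_exists_ne_one.mp d2 : ∃ a : derivedSeries G 2, a ≠ 1)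
    |>.imp' (q := fun x : G => x ∈ derivedSeries G 2 ∧ x ≠ 1) Subtype.val
      fun a h => ⟨a.2, fun e => h (Subtype.ext e)⟩
  have xA : x ∈ ⁅H, H⁆ := Subgroup.commutator_mono G1 G1 hx
  have cjH : ∀ t, cj t H = H := fun t => by
    ext y; rw [mem_cj]
    exact ⟨fun h => by simpa [mul_assoc] using hH.conj_mem _ h t,
      fun h => by simpa using hH.conj_mem _ h t⁻¹⟩
  obtain ⟨C, c1, c2, c3, c4, c5⟩ := lemT H cH (fun h _ => cjH h)
    (fun i => Nat.casesOn i H fun j => derivedSeries G (j + 1)) rfl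
    (fun i => by
      cases i with
      | zero => exact fun a _ b _ => dc 0 a trivial b trivial
      | succ j => exact dc (j + 1))
    (fun i => by
      cases i with
      | zero => exact G1
      | succ j => exact dm (j + 1)) 3 d3 xA x1
  have hu : ∀ h ∈ H, ∃ t, h ∈ cj t C := by
    let S : Set (Subgroup G) := Set.range fun t => cj t C
    have hS : ∀ E ∈ S, Cvx E := by rintro _ ⟨t, rfl⟩; exact c1.cj t
    have cS : ∀ t, ∀ E ∈ S, cj t E ∈ S := by
      rintro t _ ⟨s, rfl⟩; exact ⟨t * s, cj_mul _ _ _⟩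
    rcases uc (cup S hS) cvx_cup (nrm _ fun h => cj_cup (cS h) (cS _)) with e | e | e
    · have : x ∈ cup S hS := Or.inr ⟨C, ⟨1, cj_one C⟩, c4⟩
      rw [e] at this; exact absurd this x1
    · intro h hh
      rw [← e] at hh
      rcases hh with rfl | ⟨_, ⟨t, rfl⟩, h2⟩
      · exact ⟨1, one_mem _⟩
      · exact ⟨t, h2⟩
    · exfalso
      apply H2
      rw [eq_top_iff, ← e]
      rintro g (rfl | ⟨_, ⟨t, rfl⟩, h2⟩)
      · exact one_mem _
      · exact cjH t ▸ cj_mono t c2 h2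
  have hb : C.normalCore = ⊥ := by
    rcases uc C.normalCore (fun g h hh g1 g2 t => c1 _ _ (hh t)
      (by simpa using mul_le_mul_left (mul_le_mul_right g1 t) t⁻¹)
      (mul_le_mul_left (mul_le_mul_right g2 t) t⁻¹)) inferInstance with e | e | e
    · exact e
    · exact absurd (le_antisymm c2 (e ▸ C.normalCore_le)) c3
    · exact absurd (eq_top_iff.mpr (e ▸ C.normalCore_le.trans c2)) H2
  have nC : (C.subgroupOf H).Normal := ⟨fun n hn h => by
    rw [Subgroup.mem_subgroupOf] at hn ⊢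
    rw [← c5 _ h.2, mem_cj]; simpa [mul_assoc] using hn⟩
  let K := H ⧸ C.subgroupOf H
  let q : H →* K := QuotientGroup.mk' _
  have q1 : ∀ a : H, q a = 1 ↔ a.1 ∈ C := fun a => QuotientGroup.eq_one_iff a
  have i1 : MulLeftMono H := ⟨fun c a b h => mul_le_mul_right (show a.1 ≤ b.1 from h) c.1⟩
  have i2 : MulRightMono H := ⟨fun c a b h => mul_le_mul_left (show a.1 ≤ b.1 from h) c.1⟩
  have rK := (Cvx.rc (C := C.subgroupOf H) (fun g h hh g1 g2 => c1 _ _ hh g1 g2) nC).quot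
  have sur : ((derivedSeries G 1).subgroupOf H).map q = ⊤ := by
    rw [eq_top_iff]
    intro y _
    obtain ⟨h, rfl⟩ := QuotientGroup.mk'_surjective _ y
    obtain ⟨t, ht⟩ := hu _ h.2
    refine ⟨⟨⁅h.1, t⁻¹⁆, hG _ _⟩⁻¹⁻¹, ?_, ?_⟩
    · simpa [Subgroup.mem_subgroupOf] using dc 0 h.1 trivial t⁻¹ trivial
    · have m : t⁻¹ * h.1 * t ∈ C := mem_cj.1 ht
      have e : (⟨⁅h.1, t⁻¹⁆, hG _ _⟩ : H) = h * (⟨_, c2 m⟩ : H)⁻¹ := by
        ext; simp [commutatorElement_def, mul_assoc]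
      rw [inv_inv, e, map_mul, map_inv, (q1 ⟨_, c2 m⟩).2 m]
      rw [inv_one, mul_one]
  have abK : ∀ a ∈ commutator K, ∀ b ∈ commutator K, Commute a b := by
    have l : commutator K ≤ ((derivedSeries G 2).subgroupOf H).map q := by
      rw [commutator_def, ← sur, ← Subgroup.map_commutator]
      exact Subgroup.map_mono (Subgroup.commutator_le.mpr fun a ha b hb => dc 1 _ ha _ hb)
    intro a ha b hb
    obtain ⟨a, a1, rfl⟩ := l ha
    obtain ⟨b, b1, rfl⟩ := l hb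
    have := dc 2 _ a1 _ b1
    rw [d3, Subgroup.mem_bot, commutatorElement_eq_one_iff_commute] at this
    exact Commute.map (Subtype.ext this : Commute a b) q
  have nA : (⁅H, H⁆ : Subgroup G).Normal := inferInstance
  have AH : ⁅H, H⁆ ≤ H := Subgroup.commutator_le_left _ _
  let π : G →* G ⧸ ⁅H, H⁆ := QuotientGroup.mk' _
  have π1 : ∀ a, π a = 1 ↔ a ∈ ⁅H, H⁆ := fun a => QuotientGroup.eq_one_iff a
  have πc : ∀ a ∈ H, ∀ b ∈ H, Commute (π a) (π b) := fun a ha b hb => by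
    rw [← commutatorElement_eq_one_iff_commute, ← map_commutatorElement, π1]
    exact Subgroup.commutator_mem_commutator ha hb
  let M : Subgroup G :=
    { carrier := {h | h ∈ H ∧ ∃ n : ℕ, 0 < n ∧ ∃ c ∈ C, π c = π h ^ n}
      one_mem' := ⟨one_mem _, 1, one_pos, 1, one_mem _, by simp⟩
      mul_mem' := by
        rintro a b ⟨a1, n, n0, c, hc, e1⟩ ⟨b1, m, m0, d, hd, e2⟩
        refine ⟨mul_mem a1 b1, n * m, Nat.mul_pos n0 m0, c ^ m * d ^ n,
          mul_mem (pow_mem hc _) (pow_mem hd _), ?_⟩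
        rw [map_mul, map_mul, map_pow, map_pow, e1, e2, (πc a a1 b b1).mul_pow, ← pow_mul,
          ← pow_mul, mul_comm m]
      inv_mem' := by
        rintro a ⟨a1, n, n0, c, hc, e1⟩
        exact ⟨inv_mem a1, n, n0, c⁻¹, inv_mem hc, by rw [map_inv, map_inv, e1, inv_pow]⟩ }
  have AM : ⁅H, H⁆ ≤ M := fun a ha =>
    ⟨AH ha, 1, one_pos, 1, one_mem _, by rw [(π1 a).2 ha]; simp⟩
  have CM : C ≤ M := fun a ha => ⟨c2 ha, 1, one_pos, a, ha, by simp⟩
  have mono : ∀ s t, cj s C ≤ cj t C → cj s M ≤ cj t M := by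
    intro s t h y hy
    obtain ⟨y1, n, n0, c, hc, e⟩ := mem_cj.1 hy
    refine mem_cj.2 ⟨?_, n, n0, t⁻¹ * (s * c * s⁻¹) * t,
      mem_cj.1 (h (mem_cj.2 (by simpa [mul_assoc] using hc))), ?_⟩
    · simpa [mul_assoc] using hH.conj_mem _ y1 (t⁻¹ * s)
    · have e1 : t⁻¹ * (s * c * s⁻¹) * t = (t⁻¹ * s) * c * (t⁻¹ * s)⁻¹ := by group
      have e2 : t⁻¹ * y * t = (t⁻¹ * s) * (s⁻¹ * y * s) * (t⁻¹ * s)⁻¹ := by group
      rw [e1, e2, map_mul π (_ * c), map_mul π _ c, map_mul π (_ * (s⁻¹ * y * s)),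
        map_mul π _ (s⁻¹ * y * s), map_inv, conj_pow, e]
  obtain ⟨P, hP⟩ := core_RC H M hH H1 hG (fun a ha => ha.1)
    (fun a ha b hb => AM (Subgroup.commutator_mem_commutator ha hb))
    (fun a ha n hn ⟨_, m, m0, c, hc, e⟩ =>
      ⟨ha, n * m, Nat.mul_pos hn m0, c, hc, by rw [e, map_pow, pow_mul]⟩)
    (fun s t => ((c1.cj s).total (c1.cj t)).imp (mono s t) (mono t s))
    (fun h hh => (hu h hh).imp fun t ht => cj_mono t CM ht) uq (cH.rc hH)
  rcases uq _ inferInstance ⟨P, hP⟩ with e | e | e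
  · have := Subgroup.normal_le_normalCore.mpr AM xA
    rw [e] at this; exact x1 this
  · have HM : H ≤ M := e ▸ M.normalCore_le
    have pw : ∀ h : H, ∃ n : ℕ, 0 < n ∧ q h ^ n ∈ commutator K := by
      intro h
      obtain ⟨-, n, n0, c, hc, e⟩ := HM h.2
      refine ⟨n, n0, ?_⟩
      have a1 : c⁻¹ * h.1 ^ n ∈ ⁅H, H⁆ := by
        rw [← π1, map_mul, map_inv, map_pow, e, inv_mul_cancel]
      rw [← Subgroup.map_subtype_commutator] at a1
      obtain ⟨a, a2, a3⟩ := a1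
      have a4 : h ^ n = ⟨c, c2 hc⟩ * a := by
        ext
        have : a.1 = c⁻¹ * h.1 ^ n := a3
        simp [this]
      rw [← map_pow, a4, map_mul, (q1 _).2 hc, one_mul]
      have := Subgroup.mem_map_of_mem q a2
      rw [commutator_def, Subgroup.map_commutator] at this
      exact Subgroup.commutator_mono le_top le_top this
    have AC : ⁅H, H⁆ ≤ C := Subgroup.commutator_le.mpr fun a ha b hb => by
      obtain ⟨n, n0, h1⟩ := pw ⟨a, ha⟩
      obtain ⟨m, m0, h2⟩ := pw ⟨b, hb⟩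
      have h3 := (rK.comm_root m0 (rK.comm_root n0 (abK _ h1 _ h2)).symm).symm
      rw [← commutatorElement_eq_one_iff_commute, ← map_commutatorElement, q1] at h3
      exact h3
    have := Subgroup.normal_le_normalCore.mpr AC xA
    rw [hb] at this; exact x1 this
  · exact H2 (eq_top_iff.mpr (e ▸ M.normalCore_le.trans fun a ha => ha.1))

end Pool.Agent.H.MP_b7123c_al
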